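import Pool.Agent.H45.KC.DJ
import Pool.Agent.H69.FD.Eul

/-!
# AB: logarithmic derivatives of linear factors

`DL j (a + b X) = - L_{j-1}(-b/a)` for `j ≥ 2`.
-/

open Polynomial H45KC

namespace H87AB

variable {k : Type*} [Field k]

/-- `eul n (c X)` -/
noncomputable def eu (n : ℕ) (c : k) : k[X] :=
  ((H69FD.eul n).map (Int.castRingHom k)).comp (C c * X)

theorem th_eu (n : ℕ) (c : k) :
    th (eu n c) = (C c * X) * ((derivative (H69FD.eul n)).map (Int.castRingHom k)).comp (C c * X) := by
  unfold th eu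
  rw [derivative_comp, derivative_map, derivative_C_mul, derivative_X, mul_one]
  ring

theorem eu_succ (n : ℕ) (c : k) :
    eu (n + 1) c = (1 - C c * X) * th (eu n c) + ((n : k[X]) + 1) * (C c * X) * eu n c := by
  rw [th_eu]
  unfold eu
  rw [H69FD.eul_succ]
  simp only [Polynomial.map_mul, Polynomial.map_add, Polynomial.map_sub, Polynomial.map_one,
    Polynomial.map_X, Polynomial.map_natCast, mul_comp, add_comp, sub_comp, X_comp, one_comp,
    natCast_comp]
  ring

theorem Nm_lin (a b : k) (ha : a ≠ 0) (n : ℕ) :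
    Nm (C a + X * C b) (n + 1) = - (C (a ^ (n + 2)) * eu (n + 1) (-b / a)) := by
  have hG : (C a + X * C b : k[X]) = C a * (1 - C (-b / a) * X) := by
    have h : C a * C (-b / a) = (C (-b) : k[X]) := by rw [← C_mul]; congr 1; field_simp
    calc (C a + X * C b : k[X]) = C a - C (-b) * X := by rw [C_neg]; ring
      _ = C a - (C a * C (-b / a)) * X := by rw [h]
      _ = _ := by ring
  have hth : th (C a + X * C b : k[X]) = - (C a * (C (-b / a) * X)) := by
    have h : C a * C (-b / a) = (C (-b) : k[X]) := by rw [← C_mul]; congr 1; field_simp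
    have h1 : th (C a + X * C b : k[X]) = X * C b := by
      unfold th
      simp
    rw [h1, ← mul_assoc, h, C_neg]
    ring
  induction n with
  | zero =>
    have h1 : Nm (C a + X * C b : k[X]) (0 + 1) =
        (C a + X * C b) * th (th (C a + X * C b)) -
          ((0 + 1 : ℕ) : k[X]) * th (C a + X * C b) * th (C a + X * C b) := rfl
    have hz : th (- (C a * (C (-b / a) * X)) : k[X]) = - (C a * (C (-b / a) * X)) := by
      unfold th
      simp
      ring
    have he : eu (0 + 1) (-b / a) = C (-b / a) * X := by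
      rw [eu_succ]
      have h0 : eu 0 (-b / a) = (1 : k[X]) := by
        unfold eu; rw [H69FD.eul_zero]; simp
      rw [h0]
      unfold th
      simp
    rw [h1, hth, hz, hG, he]
    push_cast
    simp only [C_pow]
    ring
  | succ n ih =>
    have h1 : Nm (C a + X * C b : k[X]) (n + 1 + 1) =
        (C a + X * C b) * th (Nm (C a + X * C b) (n + 1)) -
          ((n + 1 + 1 : ℕ) : k[X]) * Nm (C a + X * C b) (n + 1) * th (C a + X * C b) := rfl
    have h2 : th (- (C (a ^ (n + 2)) * eu (n + 1) (-b / a))) =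
        - (C (a ^ (n + 2)) * th (eu (n + 1) (-b / a))) := by
      unfold th
      rw [derivative_neg, derivative_C_mul]
      ring
    rw [h1, ih, h2, hth, hG, eu_succ (n + 1)]
    push_cast
    simp only [C_pow]
    ring

/-- the logarithmic derivatives of a linear factor -/
theorem DL_lin (j : ℕ) (hj : 2 ≤ j) (a b : k) (ha : a ≠ 0) (hab : a + b ≠ 0) :
    DL j (C a + X * C b) = - H69FD.LL (j - 1) (-b / a) := by
  obtain ⟨n, rfl⟩ : ∃ n, j = n + 2 := ⟨j - 2, by omega⟩
  have h1 : n + 2 - 1 = n + 1 := by omega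
  unfold DL H69FD.LL
  rw [h1, Nm_lin a b ha n, eval_neg, eval_mul, eval_C, eval_add, eval_mul, eval_C, eval_X, eval_C,
    one_mul]
  have h2 : (eu (n + 1) (-b / a)).eval 1 = aeval (-b / a) (H69FD.eul (n + 1)) := by
    unfold eu
    rw [eval_comp, eval_mul, eval_C, eval_X, mul_one, eval_map]
    rfl
  have h3 : 1 - -b / a = (a + b) / a := by field_simp; ring
  rw [h2, h3, div_pow]
  field_simp

/-- the logarithmic derivatives of a product of linear factors -/
theorem DL_lin_prod (j : ℕ) (hj : 2 ≤ j) {ι : Type*} (S : Finset ι) (a b : ι → k)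
    (ha : ∀ i ∈ S, a i ≠ 0) (hab : ∀ i ∈ S, a i + b i ≠ 0) :
    DL j (∏ i ∈ S, (C (a i) + X * C (b i))) = - ∑ i ∈ S, H69FD.LL (j - 1) (-(b i) / a i) := by
  have h := DL_prod j (by omega) S (fun i => C (a i) + X * C (b i)) (fun _ => 1) (by
    intro i hi
    simp only [eval_add, eval_mul, eval_C, eval_X, one_mul]
    exact hab i hi)
  simp only [pow_one, Nat.cast_one, one_mul] at h
  rw [h, ← Finset.sum_neg_distrib]
  exact Finset.sum_congr rfl fun i hi => DL_lin j hj (a i) (b i) (ha i hi) (hab i hi)

end H87AB
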