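import Pool.Agent.H87.AB.Abel0
import Pool.Agent.H83.AB.CardH
import Pool.Agent.H29.AB.Ap

/-!
# AB, part (D2b): abelian fields without `ω`: density `1 / [K : ℚ]` of the exponents
-/

open NumberField IsDedekindDomain Filter Topology Pool.Agent.H71.FD Finset

namespace H87AB

/-- no first case solution of exponent `p` over `K` -/
def FC (K : Type*) [Field K] [NumberField K] (p : ℕ) : Prop :=
  ∀ a b c : K, a ≠ 0 → b ≠ 0 → c ≠ 0 → a ^ p + b ^ p + c ^ p = 0 →
    ∃ v : HeightOneSpectrum (𝓞 K), (p : 𝓞 K) ∈ v.asIdeal ∧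
      ¬ (v.valuation K a = v.valuation K b ∧ v.valuation K b = v.valuation K c)

/-- the first case for a prime `p ≡ ± h mod f` -/
theorem fc_of_class (f : ℕ) [NeZero f] (h3f : 3 ∣ f) (L : Type*) [Field L] [NumberField L]
    [IsCyclotomicExtension {f} ℚ L] (K : Type*) [Field K] [NumberField K] (ι : K →+* L)
    (a : ℕ) (haf : a.Coprime f)
    (hg : ∃ g : (ZMod f)ˣ, (g : ZMod f).val = a ∧ a % 3 = 2 ∧
        ∀ x : K, (IsCyclotomicExtension.Rat.galEquivZMod f L).symm g (ι x) = ι x)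
    (p : ℕ) [hp : Fact p.Prime] (h5 : 5 ≤ p) (hpa : p ≡ a [MOD f] ∨ p + a ≡ 0 [MOD f])
    (hsix : SixAt f L p) : FC K p := by
  intro x y z hx hy hz hs
  by_contra hcon
  push Not at hcon
  obtain ⟨g, hga, ha3, hfix⟩ := hg
  have hgv : (g : ZMod f) = (a : ZMod f) := by
    rw [← hga, ZMod.natCast_val, ZMod.cast_id', id]
  have hpf : ¬ p ∣ f := by
    intro hd
    have h1 : p ∣ a := by
      rcases hpa with h | h
      · have h2 : p ≡ a [MOD p] := h.of_dvd hd
        have h3 : a ≡ 0 [MOD p] := h2.symm.trans ((Nat.modEq_zero_iff_dvd).mpr dvd_rfl)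
        exact (Nat.modEq_zero_iff_dvd).mp h3
      · have h2 : p + a ≡ 0 [MOD p] := h.of_dvd hd
        have h3 := (Nat.modEq_zero_iff_dvd).mp h2
        exact (Nat.dvd_add_right dvd_rfl).mp h3
    have h2 : p ∣ 1 := by
      have := Nat.dvd_gcd h1 hd
      rwa [haf] at this
    exact hp.out.one_lt.ne' (Nat.dvd_one.mp h2)
  refine abel_core f L K ι g hfix h3f (by rw [hga]; exact ha3) p h5 hpf 1 ?_ hsix x y z hx hy hz hs
    (fun v hv => ?_)
  · rw [pow_one, hgv]
    rcases hpa with h | h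
    · left
      exact ((ZMod.natCast_eq_natCast_iff _ _ _).mpr h).symm
    · right
      have h1 := (ZMod.natCast_eq_natCast_iff _ _ _).mpr h
      push_cast at h1
      linear_combination h1
  · exact hcon v hv

/-- the good classes, with both signs -/
theorem good_classes (f : ℕ) [NeZero f] (h3 : 3 ∣ f) (L : Type*) [Field L] [NumberField L]
    [IsCyclotomicExtension {f} ℚ L] (K : Type*) [Field K] [NumberField K] (ι : K →+* L)
    (hω : ∀ x : K, x ^ 2 + x + 1 ≠ 0) :
    ∃ A : Finset ℕ, (∀ a ∈ A, a < f ∧ a.Coprime f) ∧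
      (A.card : ℝ) / (f.totient : ℝ) = 1 / (Module.finrank ℚ K : ℝ) ∧
      ∀ r ∈ A, ∃ a : ℕ, a.Coprime f ∧ (r ≡ a [MOD f] ∨ r + a ≡ 0 [MOD f]) ∧
        ∃ g : (ZMod f)ˣ, (g : ZMod f).val = a ∧ a % 3 = 2 ∧
        ∀ x : K, (IsCyclotomicExtension.Rat.galEquivZMod f L).symm g (ι x) = ι x := by
  classical
  obtain ⟨A, hA, hcard, hg⟩ := Pool.Agent.H83.AB.good_density f h3 L K ι hω
  set B : Finset ℕ := A.image (fun a => f - a) with hB
  have hA0 : ∀ a ∈ A, a % 3 = 2 := by
    intro a ha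
    obtain ⟨g, -, h, -⟩ := hg a ha
    exact h
  have hinj : Set.InjOn (fun a => f - a) (A : Set ℕ) := by
    intro a ha b hb hab
    have h1 := (hA a ha).1
    have h2 := (hA b hb).1
    have h3 : f - a = f - b := hab
    omega
  have hdisj : Disjoint A B := by
    rw [Finset.disjoint_left]
    intro a ha hb
    rw [hB, mem_image] at hb
    obtain ⟨b, hb, rfl⟩ := hb
    have h1 := hA0 _ ha
    have h2 := hA0 _ hb
    have h4 := (hA b hb).1
    obtain ⟨m, hm⟩ := h3
    omega
  have hBcard : B.card = A.card := card_image_of_injOn hinj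
  refine ⟨A ∪ B, ?_, ?_, ?_⟩
  · intro a ha
    rw [mem_union] at ha
    rcases ha with ha | ha
    · exact hA a ha
    · rw [hB, mem_image] at ha
      obtain ⟨b, hb, rfl⟩ := ha
      have h1 := hA b hb
      have h2 := hA0 b hb
      have h5 : 0 < b := by
        rcases Nat.eq_zero_or_pos b with h0 | h0
        · rw [h0] at h2; omega
        · exact h0
      refine ⟨by omega, ?_⟩
      rw [Nat.coprime_comm, Nat.coprime_self_sub_right h1.1.le]
      exact h1.2.symm
  · rw [card_union_of_disjoint hdisj, hBcard]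
    push_cast
    rw [add_div, hcard]
    have : (Module.finrank ℚ K : ℝ) ≠ 0 := by
      exact_mod_cast (Module.finrank_pos (R := ℚ) (M := K)).ne'
    field_simp
    norm_num
  · intro r hr
    rw [mem_union] at hr
    rcases hr with hr | hr
    · exact ⟨r, (hA r hr).2, Or.inl rfl, hg r hr⟩
    · rw [hB, mem_image] at hr
      obtain ⟨b, hb, rfl⟩ := hr
      refine ⟨b, (hA b hb).2, Or.inr ?_, hg b hb⟩
      have h1 := (hA b hb).1
      have h2 : f - b + b = f := by omega
      rw [h2]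
      exact (Nat.modEq_zero_iff_dvd).mpr dvd_rfl

/-- a positive proportion `1 / [K : ℚ]` of the exponents -/
theorem fc_density (f : ℕ) [NeZero f] (h3 : 3 ∣ f) (L : Type*) [Field L] [NumberField L]
    [IsCyclotomicExtension {f} ℚ L] (K : Type*) [Field K] [NumberField K] (ι : K →+* L)
    (hω : ∀ x : K, x ^ 2 + x + 1 ≠ 0)
    (hnull : Null (fun p => ∃ hp : Fact p.Prime, ¬ SixAt f L p)) (ε : ℝ) (hε : 0 < ε) :
    ∀ᶠ x : ℕ in atTop,
      (1 / (Module.finrank ℚ K : ℝ) - ε) * (x / Real.log x) ≤ cn (fun p => FC K p) x := by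
  obtain ⟨A, hA, hcard, hg⟩ := good_classes f h3 L K ι hω
  have hsmall : Null (fun p => p < 5) := Null_of_bounded 5 fun p _ hp => hp.le
  have hB := hnull.or hsmall
  have h := Pool.Agent.H29.AB.ap_sdiff f (NeZero.pos f) A hA _ hB ε hε
  rw [hcard] at h
  filter_upwards [h] with x hx
  refine hx.trans ?_
  have hm : cn (fun p => p % f ∈ A ∧
      ¬ ((∃ hp : Fact p.Prime, ¬ SixAt f L p) ∨ p < 5)) x ≤ cn (fun p => FC K p) x := by
    refine cn_mono (fun p hp hpA => ?_) x
    obtain ⟨h1, h2⟩ := hpA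
    push Not at h2
    haveI : Fact p.Prime := ⟨hp⟩
    obtain ⟨a, haf, har, hgg⟩ := hg _ h1
    refine fc_of_class f h3 L K ι a haf hgg p h2.2 ?_ (h2.1 ⟨hp⟩)
    have h4 : p ≡ p % f [MOD f] := (Nat.mod_modEq p f).symm
    rcases har with h5 | h5
    · exact Or.inl (h4.trans h5)
    · exact Or.inr ((h4.add_right a).trans h5)
  exact_mod_cast hm

end H87AB
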