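import Pool.Agent.H10.CQ.Pass
import Pool.Agent.H9.AB.RelA

/-!
# AB, part (D2b): abelian fields, the end of the proof

`L = ℚ(ζ_f)`.  `SixAt f L p`: for every first case solution over `L` and every reduction
`w : 𝓞 L → Ω` one has `(a : b : c) = (1 : ω : ω²)`, with opposite values at `w` and at `w ∘ cj`.
`abel_core`: if `SixAt f L p`, `K ⊆ L` is fixed by `σ_h`, `h ≡ 2 mod 3`, `h ≡ ± p^k mod f`, then there is
no first case solution over `K`.
-/

open NumberField IsDedekindDomain H9FC H9AB Polynomial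

namespace H87AB

/-- a ring homomorphism to a field of characteristic `p` and the Frobenius -/
theorem hom_frob (f : ℕ) [NeZero f] (L : Type*) [Field L] [NumberField L]
    [IsCyclotomicExtension {f} ℚ L] {p : ℕ} [Fact p.Prime] {Ω : Type*} [Field Ω] [CharP Ω p]
    (w : 𝓞 L →+* Ω) (g : (ZMod f)ˣ) (hg : ((g : ZMod f)) = (p : ZMod f)) (y : 𝓞 L) :
    w (actL f L g y) = (w y) ^ p := by
  have hζ := IsCyclotomicExtension.zeta_spec f ℚ L
  set z : 𝓞 L := hζ.toInteger with hz
  have hz1 : z ^ f = 1 := by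
    apply RingOfIntegers.coe_injective
    rw [map_pow, map_one]
    exact hζ.pow_eq_one
  set φ₁ : 𝓞 L →+* Ω := w.comp (actL f L g) with h1
  set φ₂ : 𝓞 L →+* Ω := (frobenius Ω p).comp w with h2
  have h3 : φ₁.toIntAlgHom = φ₂.toIntAlgHom := by
    refine hζ.integralPowerBasis.algHom_ext ?_
    rw [hζ.integralPowerBasis_gen]
    show w (actL f L g z) = (w z) ^ p
    rw [actL_zeta f L g z hz1, map_pow]
    have hw1 : (w z) ^ f = 1 := by rw [← map_pow, hz1, map_one]
    have h5 : g.val.val ≡ p [MOD f] := by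
      rw [← ZMod.natCast_eq_natCast_iff, ZMod.natCast_val, ZMod.cast_id', id]
      exact hg
    rw [pow_eq_pow_mod g.val.val hw1, pow_eq_pow_mod p hw1]
    congr 1
  exact DFunLike.congr_fun h3 y

/-- iterated Frobenius -/
theorem hom_frob_pow (f : ℕ) [NeZero f] (L : Type*) [Field L] [NumberField L]
    [IsCyclotomicExtension {f} ℚ L] {p : ℕ} [Fact p.Prime] {Ω : Type*} [Field Ω] [CharP Ω p]
    (w : 𝓞 L →+* Ω) (g : (ZMod f)ˣ) (hg : ((g : ZMod f)) = (p : ZMod f)) (k : ℕ) (y : 𝓞 L) :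
    w (actL f L (g ^ k) y) = (w y) ^ p ^ k := by
  induction k generalizing y with
  | zero =>
    rw [pow_zero, pow_zero, pow_one]
    have : actL f L 1 = RingHom.id (𝓞 L) := by
      unfold actL
      rw [map_one]
      ext x
      show (((1 : L ≃ₐ[ℚ] L) • x : 𝓞 L) : L) = x
      rw [one_smul]
    rw [this, RingHom.id_apply]
  | succ k ih =>
    rw [pow_succ, actL_mul, RingHom.comp_apply, ih, hom_frob f L w g hg, ← pow_mul, pow_succ,
      mul_comm (p ^ k) p]

/-- a primitive cube root of unity with `x ^ n = 1` -/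
theorem three_dvd {Ω : Type*} [Field Ω] (h3 : (3 : Ω) ≠ 0) {x : Ω} (hx : x ^ 2 + x + 1 = 0) {n : ℕ}
    (hn : x ^ n = 1) : 3 ∣ n := by
  have hx3 : x ^ 3 = 1 := by linear_combination (x - 1) * hx
  have hx1 : x ≠ 1 := by
    rintro rfl
    exact h3 (by linear_combination hx)
  haveI : Fact (Nat.Prime 3) := ⟨Nat.prime_three⟩
  have hord : orderOf x = 3 := orderOf_eq_prime hx3 hx1
  rw [← hord]
  exact orderOf_dvd_of_pow_eq_one hn

/-- every first case solution over `L` is `(1 : ω : ω²)` at every place above `p`, with opposite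
values at conjugate places -/
def SixAt (f : ℕ) [NeZero f] (L : Type*) [Field L] [NumberField L] [IsCyclotomicExtension {f} ℚ L]
    (p : ℕ) [Fact p.Prime] : Prop :=
  ∀ a b c : 𝓞 L, FSol L p a b c →
    (∀ P : Ideal (𝓞 L), P.IsPrime → (p : 𝓞 L) ∈ P → a ∉ P ∧ b ∉ P ∧ c ∉ P) →
    ∀ w : 𝓞 L →+* AlgebraicClosure (ZMod p),
      w a ^ 2 + w a * w b + w b ^ 2 = 0 ∧
        w (actL f L (-1) a) * w a = w (actL f L (-1) b) * w b

/-- the end: no first case solution over `K` -/
theorem abel_core (f : ℕ) [NeZero f] (L : Type*) [Field L] [NumberField L]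
    [IsCyclotomicExtension {f} ℚ L] (K : Type*) [Field K] [NumberField K] (ι : K →+* L)
    (h : (ZMod f)ˣ) (hfix : ∀ x : K, (IsCyclotomicExtension.Rat.galEquivZMod f L).symm h (ι x) = ι x) (h3f : 3 ∣ f) (hh3 : h.val.val % 3 = 2)
    (p : ℕ) [Fact p.Prime] (hp : 5 ≤ p) (hpf : ¬ p ∣ f) (k : ℕ)
    (hh : (h : ZMod f) = (p : ZMod f) ^ k ∨ (h : ZMod f) = -(p : ZMod f) ^ k)
    (hsix : SixAt f L p) (a b c : K) (ha : a ≠ 0) (hb : b ≠ 0) (hc : c ≠ 0)
    (hs : a ^ p + b ^ p + c ^ p = 0)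
    (hf : ∀ v : HeightOneSpectrum (𝓞 K), (p : 𝓞 K) ∈ v.asIdeal →
      v.valuation K a = v.valuation K b ∧ v.valuation K b = v.valuation K c) : False := by
  classical
  have hpp : p.Prime := Fact.out
  haveI : Fact (Nat.Prime 2) := ⟨Nat.prime_two⟩
  obtain ⟨l, A, B, Cc, hl, eA, eB, eC, hF, -, hP⟩ := H10CQ.exists_first 2 a b c ha hb hc hs hf
  set j : 𝓞 K →+* 𝓞 L := RingOfIntegers.mapRingHom ι with hj
  have hjinj : Function.Injective j := by
    intro x y hxy
    have h1 := congrArg (algebraMap (𝓞 L) L) hxy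
    have h2 : ι (x : K) = ι (y : K) := h1
    exact RingOfIntegers.coe_injective (ι.injective h2)
  have hFL : FSol L p (j A) (j B) (j Cc) := by
    refine ⟨?_, ?_, ?_, ?_⟩
    · rw [Ne, map_eq_zero_iff j hjinj]; exact hF.1
    · rw [Ne, map_eq_zero_iff j hjinj]; exact hF.2.1
    · rw [Ne, map_eq_zero_iff j hjinj]; exact hF.2.2.1
    · rw [← map_pow, ← map_pow, ← map_pow, ← map_add, ← map_add, hF.2.2.2, map_zero]
  have hPL : ∀ P : Ideal (𝓞 L), P.IsPrime → (p : 𝓞 L) ∈ P → j A ∉ P ∧ j B ∉ P ∧ j Cc ∉ P := by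
    intro P hPp hpP
    have h1 : (P.comap j).IsPrime := Ideal.comap_isPrime j P
    have h2 : (p : 𝓞 K) ∈ P.comap j := by rw [Ideal.mem_comap, map_natCast]; exact hpP
    exact hP _ h1 h2
  obtain ⟨w⟩ : Nonempty (𝓞 L →+* AlgebraicClosure (ZMod p)) := by
    obtain ⟨ψ, -⟩ := exists_redFam L p (AlgebraicClosure (ZMod p))
    exact ⟨ψ ⟨0, Module.finrank_pos⟩⟩
  obtain ⟨h6, h7⟩ := hsix (j A) (j B) (j Cc) hFL hPL w
  set Ω := AlgebraicClosure (ZMod p)
  have h3Ω : (3 : Ω) ≠ 0 := by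
    intro h0
    have h1 : ((3 : ℕ) : Ω) = 0 := by exact_mod_cast h0
    rw [CharP.cast_eq_zero_iff Ω p] at h1
    have := Nat.le_of_dvd (by norm_num) h1
    omega
  have hwA : w (j A) ≠ 0 := by
    intro h0
    have h1 := hPL (RingHom.ker w) (RingHom.ker_isPrime _) (by
      rw [RingHom.mem_ker, map_natCast, CharP.cast_eq_zero])
    exact h1.1 h0
  have hwB : w (j B) ≠ 0 := by
    intro h0
    have h1 := hPL (RingHom.ker w) (RingHom.ker_isPrime _) (by
      rw [RingHom.mem_ker, map_natCast, CharP.cast_eq_zero])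
    exact h1.2.1 h0
  set x : Ω := w (j B) / w (j A) with hx
  have hx0 : x ≠ 0 := div_ne_zero hwB hwA
  have hx2 : x ^ 2 + x + 1 = 0 := by
    have e : w (j B) = x * w (j A) := by rw [hx, div_mul_cancel₀ _ hwA]
    rw [e] at h6
    have e2 : w (j A) ^ 2 * (x ^ 2 + x + 1) = 0 := by linear_combination h6
    exact (mul_eq_zero.mp e2).resolve_left (pow_ne_zero 2 hwA)
  have hfixj : ∀ y : 𝓞 K, actL f L h (j y) = j y := by
    intro y
    apply RingOfIntegers.coe_injective
    exact hfix (y : K)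
  -- the Frobenius element
  have hcop : Nat.Coprime p f := (Nat.Prime.coprime_iff_not_dvd hpp).mpr hpf
  set g : (ZMod f)ˣ := ZMod.unitOfCoprime p hcop with hg
  have hgp : (g : ZMod f) = (p : ZMod f) := ZMod.coe_unitOfCoprime p hcop
  have hmod3 : (3 : ℕ) ∣ f := h3f
  have hcast : (((ZMod.castHom hmod3 (ZMod 3)) (h : ZMod f)) : ZMod 3) = (2 : ZMod 3) := by
    have h1 : (h : ZMod f) = ((h.val.val : ℕ) : ZMod f) := by
      rw [ZMod.natCast_val, ZMod.cast_id', id]
    rw [h1, map_natCast]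
    have h2 : ((h.val.val : ℕ) : ZMod 3) = ((2 : ℕ) : ZMod 3) := by
      rw [ZMod.natCast_eq_natCast_iff]
      show h.val.val % 3 = 2 % 3
      omega
    rw [h2]; rfl
  have hpk3 : (((ZMod.castHom hmod3 (ZMod 3)) ((p : ZMod f) ^ k)) : ZMod 3) =
      ((p ^ k : ℕ) : ZMod 3) := by
    rw [map_pow, map_natCast]; push_cast; rfl
  rcases hh with hh | hh
  · -- `h = p ^ k`
    have hhg : h = g ^ k := by
      ext
      rw [Units.val_pow_eq_pow_val, hgp, hh]
    have hA1 := hom_frob_pow f L w g hgp k (j A)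
    have hB1 := hom_frob_pow f L w g hgp k (j B)
    rw [← hhg, hfixj] at hA1 hB1
    have hx3 : x ^ p ^ k = x := by
      rw [hx, div_pow, ← hA1, ← hB1]
    have hpk : 1 ≤ p ^ k := Nat.one_le_pow _ _ hpp.pos
    have hx4 : x ^ (p ^ k - 1) = 1 := by
      have h1 : x ^ (p ^ k - 1) * x = 1 * x := by
        rw [← pow_succ, Nat.sub_add_cancel hpk, hx3, one_mul]
      exact mul_right_cancel₀ hx0 h1
    have h8 := three_dvd h3Ω hx2 hx4
    rw [hh, hpk3] at hcast
    have h9 : ((p ^ k : ℕ) : ZMod 3) = ((1 : ℕ) : ZMod 3) := by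
      rw [ZMod.natCast_eq_natCast_iff]
      exact ((Nat.modEq_iff_dvd' hpk).mpr h8).symm
    rw [h9] at hcast
    exact absurd hcast (by decide)
  · -- `h = - p ^ k`
    have hhg : h = -1 * g ^ k := by
      ext
      rw [Units.val_mul, Units.val_pow_eq_pow_val, hgp, hh]
      simp
    set w' : 𝓞 L →+* Ω := w.comp (actL f L (-1)) with hw'
    have hw'v : ∀ y, w' y = w (actL f L (-1) y) := fun y => rfl
    have hA1 := hom_frob_pow f L w' g hgp k (j A)
    have hB1 := hom_frob_pow f L w' g hgp k (j B)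
    have hcc : ∀ y, actL f L (-1) (actL f L (g ^ k) y) = actL f L h y := by
      intro y
      rw [hhg, actL_mul]
      rfl
    rw [hw'v, hw'v, hcc, hfixj] at hA1 hB1
    have hwA' : w (actL f L (-1) (j A)) ≠ 0 := by
      intro h0
      rw [h0, zero_pow (pow_ne_zero k hpp.ne_zero)] at hA1
      exact hwA hA1
    have hx3 : x = (x⁻¹) ^ p ^ k := by
      have h1 : x⁻¹ = w (actL f L (-1) (j B)) / w (actL f L (-1) (j A)) := by
        rw [hx, inv_div, div_eq_div_iff hwB hwA']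
        linear_combination h7
      rw [h1, div_pow, ← hA1, ← hB1]
    have hx4 : x ^ (p ^ k + 1) = 1 := by
      have h1 : x ^ p ^ k * (x⁻¹) ^ p ^ k = 1 := by
        rw [← mul_pow, mul_inv_cancel₀ hx0, one_pow]
      rw [pow_succ]
      calc x ^ p ^ k * x = x ^ p ^ k * (x⁻¹) ^ p ^ k := by rw [← hx3]
        _ = 1 := h1
    have h8 := three_dvd h3Ω hx2 hx4
    rw [hh, map_neg, hpk3] at hcast
    have h9 : ((p ^ k + 1 : ℕ) : ZMod 3) = 0 := (ZMod.natCast_eq_zero_iff _ _).mpr h8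
    have h10 : ((p ^ k : ℕ) : ZMod 3) = -1 := by
      push_cast at h9 ⊢
      linear_combination h9
    rw [h10] at hcast
    exact absurd hcast (by decide)

end H87AB
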