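import Pool.Agent.H87.AB.AbelS

/-!
# AB, part (D2b), strong form with any set of good classes
-/

open NumberField IsDedekindDomain H9FC H9AB Polynomial Filter Topology Pool.Agent.H71.FD Finset

namespace H87AB

/-- a class `a` modulo `f` is good for `K ⊆ ℚ(ζ_f)` -/
def GoodClass (f : ℕ) [NeZero f] (L : Type*) [Field L] [NumberField L]
    [IsCyclotomicExtension {f} ℚ L] (K : Type*) [Field K] [NumberField K] (ι : K →+* L)
    (a : ℕ) : Prop :=
  ∃ h : (ZMod f)ˣ, h.val.val % 3 = 2 ∧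
    (∀ x : K, (IsCyclotomicExtension.Rat.galEquivZMod f L).symm h (ι x) = ι x) ∧
    ∃ k : ℕ, (h : ZMod f) = (a : ZMod f) ^ k ∨ (h : ZMod f) = -(a : ZMod f) ^ k

theorem fcs_of_good (f : ℕ) [NeZero f] (h3f : 3 ∣ f) (L : Type*) [Field L] [NumberField L]
    [IsCyclotomicExtension {f} ℚ L] (K : Type*) [Field K] [NumberField K] (ι : K →+* L)
    (p : ℕ) [hp : Fact p.Prime] (h5 : 5 ≤ p) (hpf : ¬ p ∣ f) (hg : GoodClass f L K ι p)
    (hS : StrongAt f L p) : FCS K p := by
  intro x y z hx hy hz hs v hv hcon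
  obtain ⟨h, hh3, hfix, k, hk⟩ := hg
  exact strong_core f L K ι h hfix h3f hh3 p h5 hpf k hk hS x y z hx hy hz hs v hv hcon

theorem goodClass_congr (f : ℕ) [NeZero f] (L : Type*) [Field L] [NumberField L]
    [IsCyclotomicExtension {f} ℚ L] (K : Type*) [Field K] [NumberField K] (ι : K →+* L)
    {a b : ℕ} (hab : a ≡ b [MOD f]) (h : GoodClass f L K ι a) : GoodClass f L K ι b := by
  obtain ⟨g, h1, h2, k, hk⟩ := h
  refine ⟨g, h1, h2, k, ?_⟩
  have e : (b : ZMod f) = (a : ZMod f) := ((ZMod.natCast_eq_natCast_iff _ _ _).mpr hab).symm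
  rw [e]
  exact hk

/-- the density of the good exponents, for any finite set of good classes -/
theorem fcs_density_of (f : ℕ) [NeZero f] (h3 : 3 ∣ f) (L : Type*) [Field L] [NumberField L]
    [IsCyclotomicExtension {f} ℚ L] (K : Type*) [Field K] [NumberField K] (ι : K →+* L)
    (A : Finset ℕ) (hA : ∀ a ∈ A, a < f ∧ a.Coprime f) (hg : ∀ a ∈ A, GoodClass f L K ι a)
    (δ : ℝ) (hδ : δ ≤ (A.card : ℝ) / (f.totient : ℝ))
    (hnull : Null (fun p => ∃ hp : Fact p.Prime, ¬ StrongAt f L p)) (ε : ℝ) (hε : 0 < ε) :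
    ∀ᶠ x : ℕ in atTop, (δ - ε) * (x / Real.log x) ≤ cn (fun p => FCS K p) x := by
  have hsmall : Null (fun p => p < 5 ∨ p ∣ f) := Null_of_bounded (max 5 f) fun p _ hp => by
    rcases hp with hp | hp
    · exact hp.le.trans (le_max_left _ _)
    · exact (Nat.le_of_dvd (NeZero.pos f) hp).trans (le_max_right _ _)
  have hB := hnull.or hsmall
  have h := Pool.Agent.H29.AB.ap_sdiff f (NeZero.pos f) A hA _ hB ε hε
  filter_upwards [h, eventually_ge_atTop 1] with x hx hx1
  have hlog : (0 : ℝ) ≤ x / Real.log x :=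
    div_nonneg (Nat.cast_nonneg x) (Real.log_natCast_nonneg x)
  refine (mul_le_mul_of_nonneg_right (sub_le_sub_right hδ ε) hlog).trans (hx.trans ?_)
  have hm : cn (fun p => p % f ∈ A ∧
      ¬ ((∃ hp : Fact p.Prime, ¬ StrongAt f L p) ∨ (p < 5 ∨ p ∣ f))) x ≤
      cn (fun p => FCS K p) x := by
    refine cn_mono (fun p hp hpA => ?_) x
    obtain ⟨h1, h2⟩ := hpA
    push Not at h2
    haveI : Fact p.Prime := ⟨hp⟩
    exact fcs_of_good f h3 L K ι p h2.2.1 h2.2.2
      (goodClass_congr f L K ι (Nat.mod_modEq p f) (hg _ h1)) (h2.1 ⟨hp⟩)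
  exact_mod_cast hm

/-- all primes outside a null set, if `-1` fixes `K` (`K` real) or, more generally, if all classes
are good -/
theorem fcs_null_of (f : ℕ) [NeZero f] (h3 : 3 ∣ f) (L : Type*) [Field L] [NumberField L]
    [IsCyclotomicExtension {f} ℚ L] (K : Type*) [Field K] [NumberField K] (ι : K →+* L)
    (hg : ∀ a : ℕ, a.Coprime f → GoodClass f L K ι a)
    (hnull : Null (fun p => ∃ hp : Fact p.Prime, ¬ StrongAt f L p)) :
    Null (fun p => ¬ FCS K p) := by
  have hsmall : Null (fun p => p < 5 ∨ p ∣ f) := Null_of_bounded (max 5 f) fun p _ hp => by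
    rcases hp with hp | hp
    · exact hp.le.trans (le_max_left _ _)
    · exact (Nat.le_of_dvd (NeZero.pos f) hp).trans (le_max_right _ _)
  refine (hnull.or hsmall).mono fun p hp h => ?_
  by_contra hcon
  push Not at hcon
  haveI : Fact p.Prime := ⟨hp⟩
  exact h (fcs_of_good f h3 L K ι p hcon.2.1 hcon.2.2
    (hg p ((Nat.Prime.coprime_iff_not_dvd hp).mpr hcon.2.2)) (hcon.1 ⟨hp⟩))

/-- real fields: every class is good -/
theorem goodClass_real (f : ℕ) [NeZero f] (h3 : 3 ∣ f) (L : Type*) [Field L] [NumberField L]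
    [IsCyclotomicExtension {f} ℚ L] (K : Type*) [Field K] [NumberField K] (ι : K →+* L)
    (hreal : ∀ x : K, (IsCyclotomicExtension.Rat.galEquivZMod f L).symm (-1) (ι x) = ι x)
    (a : ℕ) : GoodClass f L K ι a := by
  refine ⟨-1, ?_, hreal, 0, Or.inr ?_⟩
  · obtain ⟨m, hm⟩ := h3
    have hm0 : 0 < m := by
      rcases Nat.eq_zero_or_pos m with h | h
      · exact absurd (by rw [hm, h, Nat.mul_zero]) (NeZero.ne f)
      · exact h
    have h1 : ((-1 : (ZMod f)ˣ) : ZMod f).val = f - 1 := by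
      obtain ⟨n, rfl⟩ : ∃ n, f = n + 1 := ⟨f - 1, by have := NeZero.pos f; omega⟩
      rw [Units.val_neg, Units.val_one, ZMod.val_neg_one]
      rfl
    rw [h1, hm]
    omega
  · simp

end H87AB
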