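import Pool.Agent.H29.AB.Iface
import Pool.Agent.H83.AB.CardPm
import Pool.Agent.H87.AB.Abel0
import Pool.Agent.H66.AB.ConjM

/-!
# AB, module M7: imaginary abelian fields

`K` imaginary, contained in a cyclotomic field, without primitive cube root of unity; `F` its maximal
real subfield.  There is a set of classes `A` modulo `q`, `3 ∣ q`, of proportion `1 / [K : ℚ]`, such that for the
primes `p` in these classes the symmetry `SymF F K p` excludes all good places.
-/

open NumberField IsDedekindDomain H9FC H9AB Polynomial H29AB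

namespace H87AB

universe u

theorem cyc_emb (f q : ℕ) (hq : 0 < q) (h : f ∣ q) :
    Nonempty (CyclotomicField f ℚ →+* CyclotomicField q ℚ) := by
  haveI : NeZero q := ⟨hq.ne'⟩
  haveI : NeZero ((q : ℕ) : ℚ) := ⟨Nat.cast_ne_zero.2 hq.ne'⟩
  haveI : IsCyclotomicExtension {q} ℚ (CyclotomicField q ℚ) :=
    CyclotomicField.isCyclotomicExtension q ℚ
  have hs : ((cyclotomic f ℚ).map (algebraMap ℚ (CyclotomicField q ℚ))).Splits := by
    have hz := IsCyclotomicExtension.zeta_spec q ℚ (CyclotomicField q ℚ)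
    have h1 : ((X ^ q - 1 : Polynomial (CyclotomicField q ℚ))).Splits := X_pow_sub_one_splits hz
    refine h1.of_dvd (X_pow_sub_C_ne_zero hq 1) ?_
    rw [map_cyclotomic]
    exact (cyclotomic.dvd_X_pow_sub_one f _).trans (by
      obtain ⟨k, rfl⟩ := h
      rw [pow_mul]
      simpa using sub_dvd_pow_sub_pow ((X : Polynomial (CyclotomicField (f * k) ℚ)) ^ f) 1 k)
  exact ⟨((SplittingField.lift (cyclotomic f ℚ) hs :
    (cyclotomic f ℚ).SplittingField →ₐ[ℚ] CyclotomicField q ℚ) :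
      (cyclotomic f ℚ).SplittingField →+* CyclotomicField q ℚ)⟩

theorem totComplex_of (K : Type*) [Field K] [NumberField K] [IsGalois ℚ K]
    (h : ¬ IsTotallyReal K) : IsTotallyComplex K := by
  constructor
  intro w
  by_contra hw
  apply h
  constructor
  intro w'
  have hw1 : w.IsReal := InfinitePlace.not_isComplex_iff_isReal.1 hw
  obtain ⟨σ, hσ⟩ := InfinitePlace.exists_smul_eq_of_comap_eq (k := ℚ) (w := w) (w' := w')
    (Subsingleton.elim _ _)
  rw [← hσ]
  exact InfinitePlace.isReal_smul_iff.2 hw1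

section

variable {K L : Type*} [Field K] [NumberField K] [Field L] [NumberField L]

/-- a reduction of `𝓞 L` above a place of `K` -/
theorem exists_red (ι : K →+* L) (p : ℕ) [Fact p.Prime] (v : HeightOneSpectrum (𝓞 K))
    (hp : (p : 𝓞 K) ∈ v.asIdeal) :
    ∃ P : Ideal (𝓞 L), P.IsMaximal ∧ (p : 𝓞 L) ∈ P ∧
      ∀ y : 𝓞 K, RingOfIntegers.mapRingHom ι y ∈ P ↔ y ∈ v.asIdeal := by
  let _ := ι.toAlgebra
  obtain ⟨P, hPm, hPo⟩ := Ideal.exists_maximal_ideal_liesOver_of_isIntegral (S := 𝓞 L) v.asIdeal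
  have h1 : ∀ y : 𝓞 K, RingOfIntegers.mapRingHom ι y ∈ P ↔ y ∈ v.asIdeal := by
    intro y
    rw [hPo.over]
    rfl
  refine ⟨P, hPm, ?_, h1⟩
  have := (h1 (p : 𝓞 K)).2 hp
  rwa [map_natCast] at this

end

section

variable (f : ℕ) [NeZero f] (L : Type*) [Field L] [NumberField L] [IsCyclotomicExtension {f} ℚ L]
variable {K : Type*} [Field K] [NumberField K] (ι : K →+* L) (p : ℕ) [Fact p.Prime]
  (g : (ZMod f)ˣ) (hg : (g : ZMod f) = (p : ZMod f))

include hg in
/-- the Frobenius congruence at a place of `K` -/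
theorem frob_place (v : HeightOneSpectrum (𝓞 K)) (hp : (p : 𝓞 K) ∈ v.asIdeal) (y z : 𝓞 K)
    (h : (IsCyclotomicExtension.Rat.galEquivZMod f L).symm g (ι y) = ι z) :
    y ^ p - z ∈ v.asIdeal := by
  obtain ⟨P, hPm, hpP, hP⟩ := exists_red (L := L) ι p v hp
  letI := Ideal.Quotient.field P
  have hchar : CharP (𝓞 L ⧸ P) p := by
    rw [CharP.charP_iff_prime_eq_zero (Fact.out : p.Prime)]
    have h1 := Ideal.Quotient.eq_zero_iff_mem.2 hpP
    rwa [map_natCast] at h1
  have h2 := hom_frob f L (Ideal.Quotient.mk P) g hg (RingOfIntegers.mapRingHom ι y)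
  have h3 : actL f L g (RingOfIntegers.mapRingHom ι y) = RingOfIntegers.mapRingHom ι z := by
    apply RingOfIntegers.coe_injective
    exact h
  rw [h3, ← map_pow, ← map_pow, eq_comm, ← sub_eq_zero, ← map_sub, ← map_sub,
    Ideal.Quotient.eq_zero_iff_mem, hP] at h2
  exact h2

include hg in
/-- the residue field is `𝔽_p` when the Frobenius fixes `K` -/
theorem card_res (hfix : ∀ x : K, (IsCyclotomicExtension.Rat.galEquivZMod f L).symm g (ι x) = ι x)
    (v : HeightOneSpectrum (𝓞 K)) (hp : (p : 𝓞 K) ∈ v.asIdeal) :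
    Nat.card (𝓞 K ⧸ v.asIdeal) = p := by
  classical
  haveI := v.isMaximal
  letI := Ideal.Quotient.field v.asIdeal
  haveI : Finite (𝓞 K ⧸ v.asIdeal) := Ideal.finiteQuotientOfFreeOfNeBot v.asIdeal v.ne_bot
  letI := Fintype.ofFinite (𝓞 K ⧸ v.asIdeal)
  have hpp : p.Prime := Fact.out
  have hchar : CharP (𝓞 K ⧸ v.asIdeal) p := by
    rw [CharP.charP_iff_prime_eq_zero hpp]
    have h1 := Ideal.Quotient.eq_zero_iff_mem.2 hp
    rwa [map_natCast] at h1
  have h1 : ∀ y : 𝓞 K ⧸ v.asIdeal, y ^ p - y = 0 := by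
    intro y
    obtain ⟨y, rfl⟩ := Ideal.Quotient.mk_surjective y
    rw [← map_pow, ← map_sub, Ideal.Quotient.eq_zero_iff_mem]
    exact frob_place f L ι p g hg v hp y y (hfix y)
  obtain ⟨n, -, hn⟩ := FiniteField.card (𝓞 K ⧸ v.asIdeal) p
  have h2 : Fintype.card (𝓞 K ⧸ v.asIdeal) ≤ p := by
    have h3 := (FiniteField.X_pow_card_sub_X_ne_zero (𝓞 K ⧸ v.asIdeal) hpp.one_lt)
    have h4 : (Finset.univ : Finset (𝓞 K ⧸ v.asIdeal)) ⊆
        (X ^ p - X : (𝓞 K ⧸ v.asIdeal)[X]).roots.toFinset := by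
      intro y _
      rw [Multiset.mem_toFinset, mem_roots h3]
      simpa using h1 y
    calc Fintype.card (𝓞 K ⧸ v.asIdeal) ≤ _ := Finset.card_le_card h4
      _ ≤ Multiset.card (X ^ p - X : (𝓞 K ⧸ v.asIdeal)[X]).roots := Multiset.toFinset_card_le _
      _ ≤ (X ^ p - X : (𝓞 K ⧸ v.asIdeal)[X]).natDegree := card_roots' _
      _ = p := FiniteField.X_pow_card_sub_X_natDegree_eq _ hpp.one_lt
  rw [Nat.card_eq_fintype_card]
  refine le_antisymm h2 ?_
  rw [hn]
  exact Nat.le_self_pow n.ne_zero p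

end

section

variable {F K : Type*} [Field F] [NumberField F] [Field K] [NumberField K] [Algebra F K]

/-- the sum of the local degrees of the good places -/
theorem good_bounds (u : HeightOneSpectrum (𝓞 F)) (a b c : K) (v : HeightOneSpectrum (𝓞 K))
    (hv : v.asIdeal.LiesOver u.asIdeal) (he : EqAt v a b c) :
    1 ≤ good u a b c ∧ good u a b c ≤ Module.finrank F K := by
  classical
  have hu := u.isMaximal
  let T := {v : HeightOneSpectrum (𝓞 K) | v.asIdeal.LiesOver u.asIdeal}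
  let m : HeightOneSpectrum (𝓞 K) → ℕ := fun v =>
    v.asIdeal.ramificationIdx (𝓞 F) * v.asIdeal.inertiaDeg (𝓞 F)
  let e : T ≃ u.asIdeal.primesOver (𝓞 K) :=
    { toFun := fun v => ⟨v.1.asIdeal, v.1.isPrime, v.2⟩
      invFun := fun P => ⟨⟨P.1, P.2.1, by
        intro h0
        have h1 := P.2.2.over
        rw [h0] at h1
        apply u.ne_bot
        rw [h1]
        exact Ideal.comap_bot_of_injective _ (FaithfulSMul.algebraMap_injective (𝓞 F) (𝓞 K))⟩, P.2.2⟩
      left_inv := fun v => rfl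
      right_inv := fun P => rfl }
  have : Fintype T := Fintype.ofEquiv _ e.symm
  have hTfin : T.Finite := Set.toFinite T
  have hsum : ∑ᶠ v ∈ T, m v = Module.finrank F K := by
    rw [finsum_mem_eq_finite_toFinset_sum m hTfin]
    have h1 : ∑ v ∈ hTfin.toFinset, m v = ∑ v : T, m v.1 := by
      rw [← Finset.sum_coe_sort]
      refine Finset.sum_bij (fun v _ => ⟨v.1, (Set.Finite.mem_toFinset hTfin).1 v.2⟩) ?_ ?_ ?_ ?_
      · intro v _
        exact Finset.mem_univ _
      · intro v _ v' _ h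
        exact Subtype.ext (congrArg (fun z : T => z.1) h)
      · intro v _
        exact ⟨⟨v.1, (Set.Finite.mem_toFinset hTfin).2 v.2⟩, Finset.mem_univ _, rfl⟩
      · intro v _
        rfl
    rw [h1, IsFractionRing.finrank_eq (𝓞 F) F (𝓞 K) K,
      ← Ideal.sum_ramification_inertia_eq_finrank u.asIdeal (𝓞 K)]
    exact Fintype.sum_equiv e _ _ fun v => rfl
  have hS : {v : HeightOneSpectrum (𝓞 K) | v.asIdeal.LiesOver u.asIdeal ∧ EqAt v a b c} ⊆ T :=
    fun v h => h.1
  have hSfin := hTfin.subset hS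
  have hgood : good u a b c = ∑ v ∈ hSfin.toFinset, m v :=
    finsum_mem_eq_finite_toFinset_sum m hSfin
  constructor
  · rw [hgood]
    have h1 : v ∈ hSfin.toFinset := hSfin.mem_toFinset.2 ⟨hv, he⟩
    have h2 : 1 ≤ m v := by
      have hp := v.isPrime
      exact Nat.mul_pos (Ideal.ramificationIdx_pos v.asIdeal (𝓞 F))
        (Ideal.inertiaDeg_pos v.asIdeal (𝓞 F))
    exact h2.trans (Finset.single_le_sum (f := m) (fun _ _ => Nat.zero_le _) h1)
  · rw [← hsum, hgood, finsum_mem_eq_finite_toFinset_sum m hTfin]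
    exact Finset.sum_le_sum_of_subset (Set.Finite.toFinset_subset_toFinset.2 hS)

end

section

variable (f : ℕ) [NeZero f] (L : Type*) [Field L] [NumberField L] [IsCyclotomicExtension {f} ℚ L]
variable {K : Type*} [Field K] [NumberField K] [IsCMField K] (ι : K →+* L)

theorem cj_cm (x : K) : (IsCyclotomicExtension.Rat.galEquivZMod f L).symm (-1) (ι x) =
    ι (IsCMField.complexConj K x) := by
  obtain ⟨φ⟩ : Nonempty (L →+* ℂ) := inferInstance
  apply φ.injective
  have h := H66AB.map_cjM_eq_conj f L φ (ι x)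
  exact h.trans (IsCMField.complexEmbedding_complexConj K (φ.comp ι) x).symm

/-- only one place above a place of the real subfield, if the Frobenius is the complex conjugation -/
theorem one_place (p : ℕ) [Fact p.Prime] (g : (ZMod f)ˣ) (hg : (g : ZMod f) = (p : ZMod f))
    (hconj : ∀ x : K, (IsCyclotomicExtension.Rat.galEquivZMod f L).symm g (ι x) =
      (IsCyclotomicExtension.Rat.galEquivZMod f L).symm (-1) (ι x))
    (u : HeightOneSpectrum (𝓞 (maximalRealSubfield K))) (v v' : HeightOneSpectrum (𝓞 K))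
    (hv : v.asIdeal.LiesOver u.asIdeal) (hv' : v'.asIdeal.LiesOver u.asIdeal)
    (hp : (p : 𝓞 K) ∈ v.asIdeal) : v' = v := by
  have hle : v'.asIdeal ≤ v.asIdeal := by
    intro y hy
    set z : 𝓞 K := IsCMField.ringOfIntegersComplexConj K y with hz
    have hzz : IsCMField.ringOfIntegersComplexConj K z = y := by
      apply RingOfIntegers.coe_injective
      show IsCMField.complexConj K (IsCMField.complexConj K (y : K)) = (y : K)
      exact IsCMField.complexConj_apply_apply K (y : K)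
    have hfix : IsCMField.ringOfIntegersComplexConj K (y * z) = y * z := by
      rw [map_mul, hzz, ← hz, mul_comm]
    obtain ⟨t, ht⟩ := (IsCMField.ringOfIntegersComplexConj_eq_self_iff K (y * z)).1 hfix
    have h1 : t ∈ u.asIdeal := by
      rw [Ideal.mem_of_liesOver v'.asIdeal u.asIdeal t, ht]
      exact Ideal.mul_mem_right _ _ hy
    rw [Ideal.mem_of_liesOver v.asIdeal u.asIdeal t, ht] at h1
    rcases v.isPrime.mem_or_mem h1 with h2 | h2
    · exact h2
    · have h3 : y ^ p - z ∈ v.asIdeal := by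
        refine frob_place f L ι p g hg v hp y z ?_
        rw [hconj, cj_cm]
        rfl
      have h4 : y ^ p ∈ v.asIdeal := by
        have h5 := Ideal.add_mem _ h3 h2
        rwa [sub_add_cancel] at h5
      exact v.isPrime.mem_of_pow_mem _ h4
  exact HeightOneSpectrum.ext (v'.isMaximal.eq_of_le v.isPrime.ne_top hle)

end

/-- imaginary abelian fields, from the module `sym_cubic` -/
theorem abel_good_of
    (hcub : ∀ (F K : Type u) [Field F] [NumberField F] [Field K] [NumberField K] [Algebra F K]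
      (p : ℕ) [Fact p.Prime], SymF F K p → 2 * Module.finrank ℚ K + 3 ≤ p →
      ∀ a b c : K, a ≠ 0 → b ≠ 0 → c ≠ 0 → a ^ p + b ^ p + c ^ p = 0 →
      ∀ u : HeightOneSpectrum (𝓞 F), (p : 𝓞 F) ∈ u.asIdeal → ¬ 3 ∣ good u a b c →
      ∃ v : HeightOneSpectrum (𝓞 K), v.asIdeal.LiesOver u.asIdeal ∧ CubAt v a b c ∧
        (Nat.card (𝓞 F ⧸ u.asIdeal) % 3 = 2 → Even (v.asIdeal.inertiaDeg (𝓞 F))) ∧
        (Nat.card (𝓞 F ⧸ u.asIdeal) % 3 = 1 → ∃ v' : HeightOneSpectrum (𝓞 K), v' ≠ v ∧
          v'.asIdeal.LiesOver u.asIdeal ∧ CubAt v' a b c))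
    (f : ℕ) (hf : 0 < f) (K : Type u) [Field K] [NumberField K]
    (hK : Nonempty (K →+* CyclotomicField f ℚ)) (him : ¬ NumberField.IsTotallyReal K)
    (hω : ∀ ω : K, ω ^ 2 + ω + 1 ≠ 0) :
    ∃ (q : ℕ) (A : Finset ℕ) (F : Type u) (_ : Field F) (_ : NumberField F) (_ : Algebra F K),
      0 < q ∧ RealAb q F ∧ Module.finrank F K = 2 ∧ (∀ a ∈ A, a < q ∧ a.Coprime q) ∧
      (A.card : ℝ) / (q.totient : ℝ) = 1 / (Module.finrank ℚ K : ℝ) ∧
      ∀ p : ℕ, p.Prime → p % q ∈ A → SymF F K p → 2 * Module.finrank ℚ K + 3 ≤ p →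
        ∀ a b c : K, a ≠ 0 → b ≠ 0 → c ≠ 0 → a ^ p + b ^ p + c ^ p = 0 →
          ∀ v : HeightOneSpectrum (𝓞 K), (p : 𝓞 K) ∈ v.asIdeal → ¬ EqAt v a b c := by
  obtain ⟨ι₀⟩ := hK
  obtain ⟨q, hq⟩ : ∃ q, q = 3 * f := ⟨_, rfl⟩
  have hq0 : 0 < q := by omega
  have h3 : 3 ∣ q := ⟨f, hq⟩
  obtain ⟨ι₁⟩ := cyc_emb f q hq0 ⟨3, by omega⟩
  have : NeZero q := ⟨hq0.ne'⟩
  have : NeZero ((q : ℕ) : ℚ) := ⟨Nat.cast_ne_zero.2 hq0.ne'⟩
  have : IsCyclotomicExtension {q} ℚ (CyclotomicField q ℚ) :=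
    CyclotomicField.isCyclotomicExtension q ℚ
  have : NumberField (CyclotomicField q ℚ) := IsCyclotomicExtension.numberField {q} ℚ _
  have hab : IsAbelianGalois ℚ (CyclotomicField q ℚ) := IsCyclotomicExtension.isAbelianGalois {q} ℚ _
  set ι : K →+* CyclotomicField q ℚ := ι₁.comp ι₀ with hι
  have hab' : IsAbelianGalois ℚ K := IsAbelianGalois.of_algHom ι.toRatAlgHom
  have : IsTotallyComplex K := totComplex_of K him
  have : IsCMField K := inferInstance
  obtain ⟨A, hA1, hA2, hA3⟩ := Pool.Agent.H83.AB.density_pm q h3 (CyclotomicField q ℚ) K ι hω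
  have h2 : Module.finrank (maximalRealSubfield K) K = 2 :=
    Algebra.IsQuadraticExtension.finrank_eq_two _ _
  refine ⟨q, A, maximalRealSubfield K, inferInstance, inferInstance, inferInstance, hq0,
    ⟨inferInstance, ⟨ι.comp (algebraMap (maximalRealSubfield K) K)⟩⟩, h2, hA1, hA2, ?_⟩
  intro p hp hpA hS hpn a b c ha hb hc hs v hv he
  obtain ⟨g, hgv, hg⟩ := hA3 _ hpA
  have : Fact p.Prime := ⟨hp⟩
  have hgp : (g : ZMod q) = (p : ZMod q) := by
    apply ZMod.val_injective
    rw [hgv, ZMod.val_natCast]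
  have hmod : (p % q) % 3 = p % 3 := Nat.mod_mod_of_dvd p h3
  set u : HeightOneSpectrum (𝓞 (maximalRealSubfield K)) :=
    ⟨v.asIdeal.under (𝓞 (maximalRealSubfield K)), v.isPrime.under _, by
      intro h0
      apply hp.ne_zero
      have h1 : (p : 𝓞 (maximalRealSubfield K)) ∈ v.asIdeal.under (𝓞 (maximalRealSubfield K)) := by
        rw [Ideal.under_def, Ideal.mem_comap, map_natCast]
        exact hv
      rw [h0, Ideal.mem_bot] at h1
      exact_mod_cast h1⟩ with hu
  have hvu : v.asIdeal.LiesOver u.asIdeal := ⟨rfl⟩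
  have hpu : (p : 𝓞 (maximalRealSubfield K)) ∈ u.asIdeal := by
    rw [Ideal.mem_of_liesOver v.asIdeal u.asIdeal, map_natCast]
    exact hv
  have hgood := good_bounds u a b c v hvu he
  rw [h2] at hgood
  obtain ⟨w, hw1, -, hw2, hw3⟩ := hcub (maximalRealSubfield K) K p hS hpn a b c ha hb hc hs u hpu
    (by omega)
  have hpw : (p : 𝓞 K) ∈ w.asIdeal := by
    have h4 := (Ideal.mem_of_liesOver w.asIdeal u.asIdeal (p : 𝓞 (maximalRealSubfield K))).1 hpu
    rwa [map_natCast] at h4
  have hfixF : ∀ x : maximalRealSubfield K,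
      (IsCyclotomicExtension.Rat.galEquivZMod q (CyclotomicField q ℚ)).symm g
        ((ι.comp (algebraMap (maximalRealSubfield K) K)) x) =
        (ι.comp (algebraMap (maximalRealSubfield K) K)) x := by
    intro x
    rcases hg with ⟨-, h⟩ | ⟨-, h⟩
    · exact h _
    · rw [RingHom.comp_apply, h, cj_cm]
      congr 1
      exact IsCMField.complexConj_apply_eq_self K x
  have hcardF := card_res q (CyclotomicField q ℚ) (ι.comp (algebraMap (maximalRealSubfield K) K)) p g
    hgp hfixF u hpu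
  rcases hg with ⟨h4, h⟩ | ⟨h4, h⟩
  · have hcardK := card_res q (CyclotomicField q ℚ) ι p g hgp h w hpw
    have hwm := w.isMaximal
    have hum := u.isMaximal
    have h5 := Ideal.cardQuot_pow_inertiaDeg u.asIdeal w.asIdeal
    have h6 : u.asIdeal.cardQuot = p := hcardF
    have h7 : w.asIdeal.cardQuot = p := hcardK
    rw [h6, h7] at h5
    have h8 : w.asIdeal.inertiaDeg (𝓞 (maximalRealSubfield K)) = 1 :=
      Nat.pow_right_injective hp.two_le (by simpa using h5)
    have h9 := hw2 (by rw [hcardF]; omega)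
    rw [h8] at h9
    exact absurd h9 (by decide)
  · obtain ⟨v', hne, hlo, -⟩ := hw3 (by rw [hcardF]; omega)
    exact hne (one_place q (CyclotomicField q ℚ) ι p g hgp h u w v' hw1 hlo hpw)

end H87AB
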