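import Pool.Agent.H87.AB.AbelGood
import Pool.Agent.H24.AB.Cubic

/-!
# AB, module M7: imaginary abelian fields
-/

open NumberField IsDedekindDomain H9FC H9AB Polynomial H29AB

namespace H87AB

universe u

/-- M7: imaginary abelian fields -/
theorem abel_good (f : ℕ) (hf : 0 < f) (K : Type u) [Field K] [NumberField K]
    (hK : Nonempty (K →+* CyclotomicField f ℚ)) (him : ¬ NumberField.IsTotallyReal K)
    (hω : ∀ ω : K, ω ^ 2 + ω + 1 ≠ 0) :
    ∃ (q : ℕ) (A : Finset ℕ) (F : Type u) (_ : Field F) (_ : NumberField F) (_ : Algebra F K),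
      0 < q ∧ RealAb q F ∧ Module.finrank F K = 2 ∧ (∀ a ∈ A, a < q ∧ a.Coprime q) ∧
      (A.card : ℝ) / (q.totient : ℝ) = 1 / (Module.finrank ℚ K : ℝ) ∧
      ∀ p : ℕ, p.Prime → p % q ∈ A → SymF F K p → 2 * Module.finrank ℚ K + 3 ≤ p →
        ∀ a b c : K, a ≠ 0 → b ≠ 0 → c ≠ 0 → a ^ p + b ^ p + c ^ p = 0 →
          ∀ v : HeightOneSpectrum (𝓞 K), (p : 𝓞 K) ∈ v.asIdeal → ¬ EqAt v a b c :=
  abel_good_of (fun _ _ _ _ _ _ _ _ _ hS hp a b c ha hb hc h u hu h3 =>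
    H24AB.sym_cubic hS hp a b c ha hb hc h u hu h3) f hf K hK him hω

end H87AB
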