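import Pool.Agent.H87.AB.Abel
import Pool.Agent.H3.AB.Scale

/-!
# AB, part (D2b), strong form: at no prime `v ∣ p` of `K` one has `v(a) = v(b) = v(c)`

`StrongAt f L p`: for every solution over `L = ℚ(ζ_f)` without common prime factor above `p` and every
reduction `w : 𝓞 L → Ω` with `w a, w b, w c ≠ 0` one has `(a : b : c) = (1 : ω : ω²)`, with opposite
values at `w` and at `w ∘ cj`.
-/

open NumberField IsDedekindDomain H9FC H9AB Polynomial Filter Topology Pool.Agent.H71.FD Finset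

namespace H87AB

/-- solutions over `ℚ(ζ_f)` at the good places -/
def StrongAt (f : ℕ) [NeZero f] (L : Type*) [Field L] [NumberField L]
    [IsCyclotomicExtension {f} ℚ L] (p : ℕ) [Fact p.Prime] : Prop :=
  ∀ a b c : 𝓞 L, FSol L p a b c → CopAt L p a b c →
    ∀ w : 𝓞 L →+* AlgebraicClosure (ZMod p), w a ≠ 0 → w b ≠ 0 → w c ≠ 0 →
      w a ^ 2 + w a * w b + w b ^ 2 = 0 ∧
        w (actL f L (-1) a) ≠ 0 ∧ w (actL f L (-1) b) ≠ 0 ∧
        w (actL f L (-1) b) * w b = w (actL f L (-1) a) * w a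

/-- the end: no good place -/
theorem strong_core (f : ℕ) [NeZero f] (L : Type*) [Field L] [NumberField L]
    [IsCyclotomicExtension {f} ℚ L] (K : Type*) [Field K] [NumberField K] (ι : K →+* L)
    (h : (ZMod f)ˣ)
    (hfix : ∀ x : K, (IsCyclotomicExtension.Rat.galEquivZMod f L).symm h (ι x) = ι x)
    (h3f : 3 ∣ f) (hh3 : h.val.val % 3 = 2)
    (p : ℕ) [Fact p.Prime] (hp : 5 ≤ p) (hpf : ¬ p ∣ f) (k : ℕ)
    (hh : (h : ZMod f) = (p : ZMod f) ^ k ∨ (h : ZMod f) = -(p : ZMod f) ^ k)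
    (hS : StrongAt f L p) (a b c : K) (ha : a ≠ 0) (hb : b ≠ 0) (hc : c ≠ 0)
    (hs : a ^ p + b ^ p + c ^ p = 0)
    (v : HeightOneSpectrum (𝓞 K)) (hv : (p : 𝓞 K) ∈ v.asIdeal)
    (hf : v.valuation K a = v.valuation K b ∧ v.valuation K b = v.valuation K c) : False := by
  classical
  have hpp : p.Prime := Fact.out
  obtain ⟨A, B, Cc, hF, hcop, hAv, hBv, hCv, -, -⟩ := H3AB.scale_at ha hb hc hs v hv hf
  set j : 𝓞 K →+* 𝓞 L := RingOfIntegers.mapRingHom ι with hj
  have hjinj : Function.Injective j := by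
    intro x y hxy
    have h1 := congrArg (algebraMap (𝓞 L) L) hxy
    have h2 : ι (x : K) = ι (y : K) := h1
    exact RingOfIntegers.coe_injective (ι.injective h2)
  have hFL : FSol L p (j A) (j B) (j Cc) := by
    refine ⟨?_, ?_, ?_, ?_⟩
    · rw [Ne, map_eq_zero_iff j hjinj]; exact hF.1
    · rw [Ne, map_eq_zero_iff j hjinj]; exact hF.2.1
    · rw [Ne, map_eq_zero_iff j hjinj]; exact hF.2.2.1
    · rw [← map_pow, ← map_pow, ← map_pow, ← map_add, ← map_add, hF.2.2.2, map_zero]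
  have hcopL : CopAt L p (j A) (j B) (j Cc) := by
    intro P hPp hpP hall
    have h1 : (P.comap j).IsPrime := Ideal.comap_isPrime j P
    have h2 : (p : 𝓞 K) ∈ P.comap j := by rw [Ideal.mem_comap, map_natCast]; exact hpP
    exact hcop _ h1 h2 hall
  obtain ⟨w₀, hw₀⟩ := H3AB.exists_hom_ker p (AlgebraicClosure (ZMod p)) v.asIdeal v.isPrime hv
  letI : Algebra K L := ι.toAlgebra
  obtain ⟨w, hw⟩ := H9AB.exists_lift_hom K L (AlgebraicClosure (ZMod p)) w₀
  have hwj : ∀ y : 𝓞 K, w (j y) = w₀ y := by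
    intro y
    have h1 := DFunLike.congr_fun hw y
    have h2 : algebraMap (𝓞 K) (𝓞 L) y = j y := by
      apply RingOfIntegers.coe_injective
      rfl
    rw [← h2]
    exact h1
  have hne : ∀ y : 𝓞 K, y ∉ v.asIdeal → w (j y) ≠ 0 := by
    intro y hy h0
    rw [hwj] at h0
    apply hy
    rw [← hw₀]
    exact h0
  have hwA := hne A hAv
  have hwB := hne B hBv
  obtain ⟨h6, hwA', hwB', h7⟩ := hS (j A) (j B) (j Cc) hFL hcopL w hwA hwB (hne Cc hCv)
  set Ω := AlgebraicClosure (ZMod p)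
  have h3Ω : (3 : Ω) ≠ 0 := by
    intro h0
    have h1 : ((3 : ℕ) : Ω) = 0 := by exact_mod_cast h0
    rw [CharP.cast_eq_zero_iff Ω p] at h1
    have := Nat.le_of_dvd (by norm_num) h1
    omega
  set x : Ω := w (j B) / w (j A) with hx
  have hx0 : x ≠ 0 := div_ne_zero hwB hwA
  have hx2 : x ^ 2 + x + 1 = 0 := by
    have e : w (j B) = x * w (j A) := by rw [hx, div_mul_cancel₀ _ hwA]
    rw [e] at h6
    have e2 : w (j A) ^ 2 * (x ^ 2 + x + 1) = 0 := by linear_combination h6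
    exact (mul_eq_zero.mp e2).resolve_left (pow_ne_zero 2 hwA)
  have hfixj : ∀ y : 𝓞 K, actL f L h (j y) = j y := by
    intro y
    apply RingOfIntegers.coe_injective
    exact hfix (y : K)
  -- the Frobenius element
  have hcop : Nat.Coprime p f := (Nat.Prime.coprime_iff_not_dvd hpp).mpr hpf
  set g : (ZMod f)ˣ := ZMod.unitOfCoprime p hcop with hg
  have hgp : (g : ZMod f) = (p : ZMod f) := ZMod.coe_unitOfCoprime p hcop
  have hcast : (((ZMod.castHom h3f (ZMod 3)) (h : ZMod f)) : ZMod 3) = (2 : ZMod 3) := by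
    have h1 : (h : ZMod f) = ((h.val.val : ℕ) : ZMod f) := by
      rw [ZMod.natCast_val, ZMod.cast_id', id]
    rw [h1, map_natCast]
    have h2 : ((h.val.val : ℕ) : ZMod 3) = ((2 : ℕ) : ZMod 3) := by
      rw [ZMod.natCast_eq_natCast_iff]
      show h.val.val % 3 = 2 % 3
      omega
    rw [h2]; rfl
  have hpk3 : (((ZMod.castHom h3f (ZMod 3)) ((p : ZMod f) ^ k)) : ZMod 3) =
      ((p ^ k : ℕ) : ZMod 3) := by
    rw [map_pow, map_natCast]; push_cast; rfl
  rcases hh with hh | hh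
  · -- `h = p ^ k`
    have hhg : h = g ^ k := by
      ext
      rw [Units.val_pow_eq_pow_val, hgp, hh]
    have hA1 := hom_frob_pow f L w g hgp k (j A)
    have hB1 := hom_frob_pow f L w g hgp k (j B)
    rw [← hhg, hfixj] at hA1 hB1
    have hx3 : x ^ p ^ k = x := by
      rw [hx, div_pow, ← hA1, ← hB1]
    have hpk : 1 ≤ p ^ k := Nat.one_le_pow _ _ hpp.pos
    have hx4 : x ^ (p ^ k - 1) = 1 := by
      have h1 : x ^ (p ^ k - 1) * x = 1 * x := by
        rw [← pow_succ, Nat.sub_add_cancel hpk, hx3, one_mul]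
      exact mul_right_cancel₀ hx0 h1
    have h8 := three_dvd h3Ω hx2 hx4
    rw [hh, hpk3] at hcast
    have h9 : ((p ^ k : ℕ) : ZMod 3) = ((1 : ℕ) : ZMod 3) := by
      rw [ZMod.natCast_eq_natCast_iff]
      exact ((Nat.modEq_iff_dvd' hpk).mpr h8).symm
    rw [h9] at hcast
    exact absurd hcast (by decide)
  · -- `h = - p ^ k`
    have hhg : h = -1 * g ^ k := by
      ext
      rw [Units.val_mul, Units.val_pow_eq_pow_val, hgp, hh]
      simp
    set w' : 𝓞 L →+* Ω := w.comp (actL f L (-1)) with hw'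
    have hw'v : ∀ y, w' y = w (actL f L (-1) y) := fun y => rfl
    have hA1 := hom_frob_pow f L w' g hgp k (j A)
    have hB1 := hom_frob_pow f L w' g hgp k (j B)
    have hcc : ∀ y, actL f L (-1) (actL f L (g ^ k) y) = actL f L h y := by
      intro y
      rw [hhg, actL_mul]
      rfl
    rw [hw'v, hw'v, hcc, hfixj] at hA1 hB1
    have hx3 : x = (x⁻¹) ^ p ^ k := by
      have h1 : x⁻¹ = w (actL f L (-1) (j B)) / w (actL f L (-1) (j A)) := by
        rw [hx, inv_div, div_eq_div_iff hwB hwA']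
        linear_combination -h7
      rw [h1, div_pow, ← hA1, ← hB1]
    have hx4 : x ^ (p ^ k + 1) = 1 := by
      have h1 : x ^ p ^ k * (x⁻¹) ^ p ^ k = 1 := by
        rw [← mul_pow, mul_inv_cancel₀ hx0, one_pow]
      rw [pow_succ]
      calc x ^ p ^ k * x = x ^ p ^ k * (x⁻¹) ^ p ^ k := by rw [← hx3]
        _ = 1 := h1
    have h8 := three_dvd h3Ω hx2 hx4
    rw [hh, map_neg, hpk3] at hcast
    have h9 : ((p ^ k + 1 : ℕ) : ZMod 3) = 0 := (ZMod.natCast_eq_zero_iff _ _).mpr h8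
    have h10 : ((p ^ k : ℕ) : ZMod 3) = -1 := by
      push_cast at h9 ⊢
      linear_combination h9
    rw [h10] at hcast
    exact absurd hcast (by decide)

/-- strong first case: at no prime `v ∣ p` one has `v(a) = v(b) = v(c)` -/
def FCS (K : Type*) [Field K] [NumberField K] (p : ℕ) : Prop :=
  ∀ a b c : K, a ≠ 0 → b ≠ 0 → c ≠ 0 → a ^ p + b ^ p + c ^ p = 0 →
    ∀ v : HeightOneSpectrum (𝓞 K), (p : 𝓞 K) ∈ v.asIdeal →
      ¬ (v.valuation K a = v.valuation K b ∧ v.valuation K b = v.valuation K c)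

theorem fcs_of_class (f : ℕ) [NeZero f] (h3f : 3 ∣ f) (L : Type*) [Field L] [NumberField L]
    [IsCyclotomicExtension {f} ℚ L] (K : Type*) [Field K] [NumberField K] (ι : K →+* L)
    (a : ℕ) (haf : a.Coprime f)
    (hg : ∃ g : (ZMod f)ˣ, (g : ZMod f).val = a ∧ a % 3 = 2 ∧
        ∀ x : K, (IsCyclotomicExtension.Rat.galEquivZMod f L).symm g (ι x) = ι x)
    (p : ℕ) [hp : Fact p.Prime] (h5 : 5 ≤ p) (hpa : p ≡ a [MOD f] ∨ p + a ≡ 0 [MOD f])
    (hS : StrongAt f L p) : FCS K p := by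
  intro x y z hx hy hz hs v hv hcon
  obtain ⟨g, hga, ha3, hfix⟩ := hg
  have hgv : (g : ZMod f) = (a : ZMod f) := by
    rw [← hga, ZMod.natCast_val, ZMod.cast_id', id]
  have hpf : ¬ p ∣ f := by
    intro hd
    have h1 : p ∣ a := by
      rcases hpa with h | h
      · have h2 : p ≡ a [MOD p] := h.of_dvd hd
        have h3 : a ≡ 0 [MOD p] := h2.symm.trans ((Nat.modEq_zero_iff_dvd).mpr dvd_rfl)
        exact (Nat.modEq_zero_iff_dvd).mp h3
      · have h2 : p + a ≡ 0 [MOD p] := h.of_dvd hd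
        have h3 := (Nat.modEq_zero_iff_dvd).mp h2
        exact (Nat.dvd_add_right dvd_rfl).mp h3
    have h2 : p ∣ 1 := by
      have := Nat.dvd_gcd h1 hd
      rwa [haf] at this
    exact hp.out.one_lt.ne' (Nat.dvd_one.mp h2)
  refine strong_core f L K ι g hfix h3f (by rw [hga]; exact ha3) p h5 hpf 1 ?_ hS x y z hx hy hz hs
    v hv hcon
  rw [pow_one, hgv]
  rcases hpa with h | h
  · left
    exact ((ZMod.natCast_eq_natCast_iff _ _ _).mpr h).symm
  · right
    have h1 := (ZMod.natCast_eq_natCast_iff _ _ _).mpr h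
    push_cast at h1
    linear_combination h1

/-- a positive proportion `1 / [K : ℚ]` of the exponents, strong form -/
theorem fcs_density (f : ℕ) [NeZero f] (h3 : 3 ∣ f) (L : Type*) [Field L] [NumberField L]
    [IsCyclotomicExtension {f} ℚ L] (K : Type*) [Field K] [NumberField K] (ι : K →+* L)
    (hω : ∀ x : K, x ^ 2 + x + 1 ≠ 0)
    (hnull : Null (fun p => ∃ hp : Fact p.Prime, ¬ StrongAt f L p)) (ε : ℝ) (hε : 0 < ε) :
    ∀ᶠ x : ℕ in atTop,
      (1 / (Module.finrank ℚ K : ℝ) - ε) * (x / Real.log x) ≤ cn (fun p => FCS K p) x := by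
  obtain ⟨A, hA, hcard, hg⟩ := good_classes f h3 L K ι hω
  have hsmall : Null (fun p => p < 5) := Null_of_bounded 5 fun p _ hp => hp.le
  have hB := hnull.or hsmall
  have h := Pool.Agent.H29.AB.ap_sdiff f (NeZero.pos f) A hA _ hB ε hε
  rw [hcard] at h
  filter_upwards [h] with x hx
  refine hx.trans ?_
  have hm : cn (fun p => p % f ∈ A ∧
      ¬ ((∃ hp : Fact p.Prime, ¬ StrongAt f L p) ∨ p < 5)) x ≤ cn (fun p => FCS K p) x := by
    refine cn_mono (fun p hp hpA => ?_) x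
    obtain ⟨h1, h2⟩ := hpA
    push Not at h2
    haveI : Fact p.Prime := ⟨hp⟩
    obtain ⟨a, haf, har, hgg⟩ := hg _ h1
    refine fcs_of_class f h3 L K ι a haf hgg p h2.2 ?_ (h2.1 ⟨hp⟩)
    have h4 : p ≡ p % f [MOD f] := (Nat.mod_modEq p f).symm
    rcases har with h5 | h5
    · exact Or.inl (h4.trans h5)
    · exact Or.inr ((h4.add_right a).trans h5)
  exact_mod_cast hm

end H87AB
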