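import Mathlib

/-!
# AB: extension of a ring homomorphism to an algebraically closed field along an integral extension
-/

namespace H87AB

theorem exists_extend {A B Ω : Type*} [CommRing A] [CommRing B] [Algebra A B]
    [Algebra.IsIntegral A B] [Field Ω] [IsAlgClosed Ω] (e : A →+* Ω)
    (hker : RingHom.ker (algebraMap A B) ≤ RingHom.ker e) :
    ∃ Φ : B →+* Ω, Φ.comp (algebraMap A B) = e := by
  have hP : (RingHom.ker e).IsPrime := RingHom.ker_isPrime e
  obtain ⟨Q, hQ, hQP⟩ := Ideal.exists_ideal_over_prime_of_isIntegral_of_isDomain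
    (S := B) (RingHom.ker e) hker
  haveI : Q.LiesOver (RingHom.ker e) := ⟨hQP.symm⟩
  letI : Algebra (A ⧸ RingHom.ker e) Ω := (RingHom.kerLift e).toAlgebra
  haveI h1 : Module.IsTorsionFree (A ⧸ RingHom.ker e) Ω := by
    have : FaithfulSMul (A ⧸ RingHom.ker e) Ω :=
      (faithfulSMul_iff_algebraMap_injective _ _).mpr (RingHom.kerLift_injective e)
    infer_instance
  haveI h2 : Module.IsTorsionFree (A ⧸ RingHom.ker e) (B ⧸ Q) := inferInstance
  haveI h3 : Algebra.IsAlgebraic (A ⧸ RingHom.ker e) (B ⧸ Q) := inferInstance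
  let f : (B ⧸ Q) →ₐ[A ⧸ RingHom.ker e] Ω := IsAlgClosed.lift
  refine ⟨(f : (B ⧸ Q) →+* Ω).comp (Ideal.Quotient.mk Q), ?_⟩
  ext x
  have h4 := f.commutes (Ideal.Quotient.mk (RingHom.ker e) x)
  exact h4

end H87AB
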