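import Pool.Agent.H87.AB.AbelG
import Pool.Agent.H72.AB.Strong
import Pool.Agent.H88.AB.RelId
import Pool.Agent.H59.AB.Inst
import Pool.Agent.H22.GW.Gap

/-!
# AB: `StrongAt` holds outside a set of density zero
-/

open NumberField IsDedekindDomain H9FC H9AB Polynomial Filter Topology Pool.Agent.H71.FD Finset

namespace H87AB

theorem strongAt_of (f : ℕ) [NeZero f] (L : Type*) [Field L] [NumberField L]
    [IsCyclotomicExtension {f} ℚ L] (p : ℕ) [Fact p.Prime] (hp : 3 < p)
    (hsym : H88AB.SymL f L p (AlgebraicClosure (ZMod p))) : StrongAt f L p := by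
  intro a b c hF hC w ha hb hc
  have h1 : actL f L 1 = RingHom.id (𝓞 L) := by
    unfold actL
    rw [map_one]
    ext x
    show (((1 : L ≃ₐ[ℚ] L) • x : 𝓞 L) : L) = x
    rw [one_smul]
  have hid : ∀ y, actL f L 1 y = y := fun y => by rw [h1]; rfl
  have hg : (1 : (ZMod f)ˣ) ∈ H88AB.good f L w a b c := by
    rw [H88AB.mem_good, hid, hid, hid]
    exact ⟨ha, hb, hc⟩
  obtain ⟨h2, h3, h4⟩ := H72AB.strong_L f L p hp (AlgebraicClosure (ZMod p)) hsym a b c hF hC w 1 hg
  rw [H88AB.mem_good] at h2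
  obtain ⟨k1, k2, -⟩ := h2
  rw [hid, hid] at h3 h4
  refine ⟨?_, k1, k2, ?_⟩
  · field_simp at h4
    linear_combination h4
  · field_simp at h3
    linear_combination h3

theorem exists_prime_not_dvd (f : ℕ) (hf : f ≠ 0) : ∃ c, c.Prime ∧ ¬ c ∣ f := by
  obtain ⟨c, hc1, hc2⟩ := Nat.exists_infinite_primes (f + 1)
  exact ⟨c, hc2, fun h => absurd (Nat.le_of_dvd (Nat.pos_of_ne_zero hf) h) (by omega)⟩

/-- `StrongAt` for almost all primes -/
theorem null_strongAt (f : ℕ) [NeZero f] (hf : 2 ≤ f) (L : Type*) [Field L] [NumberField L]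
    [IsCyclotomicExtension {f} ℚ L] :
    Null (fun p => ∃ hp : Fact p.Prime, ¬ StrongAt f L p) := by
  obtain ⟨c, hc, hcf⟩ := exists_prime_not_dvd f (NeZero.ne f)
  set n := Nat.card (ZMod f)ˣ with hn
  have h1 := H59AB.null_ABE H22GW.gapW hc hcf hf n
  have hsmall : Null (fun p => p ≤ max (max 7 c) f) :=
    Null_of_bounded (max (max 7 c) f) fun p _ hp => hp
  refine (h1.or hsmall).mono fun p hp h => ?_
  by_contra hcon
  push Not at hcon
  obtain ⟨hnb, hlt⟩ := hcon
  obtain ⟨hpF, hno⟩ := h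
  have h7 : 7 < p := lt_of_le_of_lt ((le_max_left 7 c).trans (le_max_left _ _)) hlt
  have hcp : c < p := lt_of_le_of_lt ((le_max_right 7 c).trans (le_max_left _ _)) hlt
  have hfp : f < p := lt_of_le_of_lt (le_max_right _ _) hlt
  have hpf : ¬ p ∣ f := fun hd => absurd (Nat.le_of_dvd (NeZero.pos f) hd) (by omega)
  haveI : NeZero (f * p) := ⟨Nat.mul_ne_zero (NeZero.ne f) hp.ne_zero⟩
  apply hno
  refine strongAt_of f L p (by omega) ?_
  refine H88AB.symL_of f L p c (AlgebraicClosure (ZMod p))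
    (H88AB.relL f p c hpf (by omega) L hc.one_lt.le ?_ (AlgebraicClosure (ZMod p))) n le_rfl ?_
  · calc c < p := hcp
      _ = 1 * p := (one_mul p).symm
      _ ≤ f * p := Nat.mul_le_mul_right p (NeZero.pos f)
  · intro n' hn' π T hT0 hT1 hrel
    by_contra hσ
    apply hnb
    refine ⟨inferInstance, n', hn', AlgebraicClosure (ZMod p), inferInstance, inferInstance,
      inferInstance, π, T, hT0, hT1, ?_, hσ⟩
    intro m hm h2m hmp χ hχ
    exact hrel χ hχ m hm h2m hmp

/-- **abelian fields**: the density of the exponents with strong first case, for a set of good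
classes -/
theorem fcs_density_abelian (f : ℕ) [NeZero f] (h3 : 3 ∣ f) (L : Type*) [Field L] [NumberField L]
    [IsCyclotomicExtension {f} ℚ L] (K : Type*) [Field K] [NumberField K] (ι : K →+* L)
    (A : Finset ℕ) (hA : ∀ a ∈ A, a < f ∧ a.Coprime f) (hg : ∀ a ∈ A, GoodClass f L K ι a)
    (δ : ℝ) (hδ : δ ≤ (A.card : ℝ) / (f.totient : ℝ)) (ε : ℝ) (hε : 0 < ε) :
    ∀ᶠ x : ℕ in atTop, (δ - ε) * (x / Real.log x) ≤ cn (fun p => FCS K p) x :=
  fcs_density_of f h3 L K ι A hA hg δ hδ (null_strongAt f (by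
    have := Nat.le_of_dvd (NeZero.pos f) h3
    omega) L) ε hε

/-- **abelian fields without a primitive cube root of unity**: lower density `1 / [K : ℚ]` -/
theorem fcs_density_inv (f : ℕ) [NeZero f] (h3 : 3 ∣ f) (L : Type*) [Field L] [NumberField L]
    [IsCyclotomicExtension {f} ℚ L] (K : Type*) [Field K] [NumberField K] (ι : K →+* L)
    (hω : ∀ x : K, x ^ 2 + x + 1 ≠ 0) (ε : ℝ) (hε : 0 < ε) :
    ∀ᶠ x : ℕ in atTop,
      (1 / (Module.finrank ℚ K : ℝ) - ε) * (x / Real.log x) ≤ cn (fun p => FCS K p) x :=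
  fcs_density f h3 L K ι hω (null_strongAt f (by
    have := Nat.le_of_dvd (NeZero.pos f) h3
    omega) L) ε hε

/-- **real abelian fields**: all exponents outside a set of density zero -/
theorem fcs_null_real (f : ℕ) [NeZero f] (h3 : 3 ∣ f) (L : Type*) [Field L] [NumberField L]
    [IsCyclotomicExtension {f} ℚ L] (K : Type*) [Field K] [NumberField K] (ι : K →+* L)
    (hreal : ∀ x : K, (IsCyclotomicExtension.Rat.galEquivZMod f L).symm (-1) (ι x) = ι x) :
    Null (fun p => ¬ FCS K p) :=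
  fcs_null_of f h3 L K ι (fun a _ => goodClass_real f h3 L K ι hreal a) (null_strongAt f (by
    have := Nat.le_of_dvd (NeZero.pos f) h3
    omega) L)

end H87AB
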